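import Pool.Agent.E8helper55.DB.Asm3
import Pool.Agent.E8helper64.DB.Vol36
import Pool.Agent.E8helper37.DB.Num3

/-!
# Corner-free sets in `(F_2^n)^2` whose lines are decided by sets with a small Fourier algebra norm

For a set `B ⊆ F_2^n` let `‖B‖` be its Fourier algebra norm, the sum of the absolute values of the
Fourier coefficients of its indicator function; cosets of subspaces have norm `1`. A family of sets
`B_1, ..., B_m` has the weight `∑ 4 ‖B_j‖ (‖B_j‖ + 1)`.

1. A structure theorem: if the weight of a family is at most `(1 - 2 η) k + 3`, then all but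
   `2^n exp (- 2 η² k)` points of `F_2^n` lie in a coset of a subspace of codimension at most `k` on
   which all members of the family are constant.
2. If all rows (or all columns, or all diagonals) of a corner-free set are unions of `T` sets
   that are decided by a family of small weight together with polynomials of small degree, then the
   set is small.
3. An explicit power saving for the corner-free sets such that all rows (or all columns, or all
   diagonals) are, up to few points, unions of `T` symmetric differences of `R` sets of this kind,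
   with weight and degree at most `n / 200` and with `T R ≤ 2^(c n)`.

Proof of 1. For a coset `C` and a set `B` let `Ψ` be the sum of the Fourier algebra norms of the sets
`C ∩ B` and `C \ B`. If both are nonempty, then there is a character, not constant on `C`, such that
the two halves of `C` satisfy `Ψ_0² + Ψ_1² ≤ 2 Ψ² - 2`, and no half of a coset has a larger `Ψ`. Now
use an exponential moment along the resulting tree, which has depth `k`. For 2 and 3, the tree gives
certificates and approximating polynomials of degree at most `k + D`; the few errors are removed by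
polynomials of degree at most `d` vanishing on them (the closure bound of Nie and Wang), and the
number of points of a corner-free set with a certificate of degree at most `m` in their line is at
most `2^n ∑_{i ≤ m} C(n, i)`.
-/

set_option autoImplicit false

namespace Pool.Agent.Results.MP_db4732_co.AlgebraNormLinesH55

open Finset Module
open Pool.Agent.Results.MP_db4732_co.PolynomialCertificates

/-- the Fourier coefficient `2^(-n) ∑_{x ∈ B} (-1)^(l · x)` of the indicator function of `B` -/
noncomputable def coefficient {n : ℕ} (B : Finset (V n)) (l : V n) : ℝ :=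
  (∑ x ∈ B, if l ⬝ᵥ x = 0 then (1 : ℝ) else -1) / 2 ^ n

/-- the Fourier algebra norm of the indicator function of `B` -/
noncomputable def algebraNorm {n : ℕ} (B : Finset (V n)) : ℝ := ∑ l : V n, |coefficient B l|

/-- the sum of `4 a (a + 1)` over the Fourier algebra norms `a` of the members of `L` -/
noncomputable def weight {n : ℕ} (L : Finset (Finset (V n))) : ℝ :=
  ∑ B ∈ L, 4 * algebraNorm B * (algebraNorm B + 1)

/-- `x` lies on a coset `x + W` of a subspace of codimension at most `k` on which all members of
`L` are constant. -/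
def OnConstantFlat {n : ℕ} (L : Finset (Finset (V n))) (k : ℕ) (x : V n) : Prop :=
  ∃ W : Submodule (ZMod 2) (V n), n ≤ finrank (ZMod 2) W + k ∧
    ∀ B ∈ L, ∀ w ∈ W, x ∈ B ↔ x + w ∈ B

/-- There is a family `L` of weight at most `s`, and every point `y` of `M` has a polynomial `h` of
degree at most `D` over `F_2`, with `h(y) ≠ 0`, such that `M` contains all points `y'` with
`h(y') ≠ 0` which lie in the same members of `L` as `y`. For `D = 0` this means that `M` is a
Boolean combination of the members of `L`. -/
def LocallyDecided {n : ℕ} (D : ℕ) (s : ℝ) (M : Set (V n)) : Prop :=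
  ∃ L : Finset (Finset (V n)), weight L ≤ s ∧
    ∀ y ∈ M, ∃ h ∈ polys (ZMod 2) n D, h y ≠ 0 ∧
      ∀ y', h y' ≠ 0 → (∀ B ∈ L, y ∈ B ↔ y' ∈ B) → y' ∈ M

/-- There are a family `L` of weight at most `s` and, for every set `P` of members of `L`, a
polynomial `h P` of degree at most `D` over `F_2`, such that a point `y` lies in `M` if and only if
`h P` is nonzero at `y` for the set `P` of the members of `L` which contain `y`. For `D = 0` this
means that `M` is a Boolean combination of the members of `L`. -/
def Decided {n : ℕ} (D : ℕ) (s : ℝ) (M : Set (V n)) : Prop :=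
  ∃ (L : Finset (Finset (V n))) (h : Set (Finset (V n)) → V n → ZMod 2), weight L ≤ s ∧
    (∀ P, h P ∈ polys (ZMod 2) n D) ∧ ∀ y, y ∈ M ↔ h {B | B ∈ L ∧ y ∈ B} y ≠ 0

/-- `M` is the symmetric difference of `R` sets which are decided with the parameters `D`, `s`. -/
def SymmetricDifference {n : ℕ} (R D : ℕ) (s : ℝ) (M : Set (V n)) : Prop :=
  ∃ F : Fin R → Set (V n), (∀ j, Decided D s (F j)) ∧ ∀ y, y ∈ M ↔ Odd {j | y ∈ F j}.ncard

/-- Up to at most `e` points, `M` is a union of `T` symmetric differences of `R` sets which are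
decided with the parameters `D`, `s`. -/
def NearUnion {n : ℕ} (T R D : ℕ) (s e : ℝ) (M : Set (V n)) : Prop :=
  ∃ F : Fin T → Set (V n), (∀ i, SymmetricDifference R D s (F i)) ∧
    ((symmDiff M (⋃ i, F i)).ncard : ℝ) ≤ e

section

variable {n : ℕ}

lemma norm_eq (B : Finset (V n)) : algebraNorm B = Pool.Agent.E8helper55.DB.N B / 2 ^ n := by
  unfold algebraNorm Pool.Agent.E8helper55.DB.N
  rw [sum_div]
  refine sum_congr rfl fun l _ => ?_
  unfold coefficient Pool.Agent.E8helper55.DB.S
  rw [abs_div, abs_of_pos (by positivity : (0 : ℝ) < 2 ^ n)]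

lemma weight_eq (L : Finset (Finset (V n))) : weight L =
    ∑ B ∈ L, 4 * (Pool.Agent.E8helper55.DB.N B / 2 ^ n) *
      (Pool.Agent.E8helper55.DB.N B / 2 ^ n + 1) := by
  unfold weight
  exact sum_congr rfl fun B _ => by rw [norm_eq]

lemma local_conv {D : ℕ} {s : ℝ} {M : Set (V n)} (h : LocallyDecided D s M) :
    Pool.Agent.E8helper55.DB.Struct D s M := by
  obtain ⟨L, hL, h⟩ := h
  exact ⟨L, by rwa [weight_eq] at hL, h⟩

lemma decided_conv {D : ℕ} {s : ℝ} {M : Set (V n)} (h : Decided D s M) :
    Pool.Agent.E8helper55.DB.Decided D s M := by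
  classical
  obtain ⟨L, g, hL, hD, h⟩ := h
  refine ⟨L, fun P => g (P : Set (Finset (V n))), by rwa [weight_eq] at hL, fun P => hD _,
    fun y => ?_⟩
  have h5 : ((L.filter (fun B => y ∈ B) : Finset (Finset (V n))) : Set (Finset (V n))) =
      {B | B ∈ L ∧ y ∈ B} := by
    ext B
    simp
  rw [h y, ← h5]

lemma sym_conv {R D : ℕ} {s : ℝ} {M : Set (V n)} (h : SymmetricDifference R D s M) :
    Pool.Agent.E8helper55.DB.SymDiff R D s M := by
  obtain ⟨F, hF, h⟩ := h
  exact ⟨F, fun j => decided_conv (hF j), h⟩

lemma near_conv {T R D : ℕ} {s e : ℝ} {M : Set (V n)} (h : NearUnion T R D s e M) :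
    Pool.Agent.E8helper55.DB.NearSym T R D s e M := by
  obtain ⟨F, hF, h⟩ := h
  exact ⟨F, fun i => sym_conv (hF i), h⟩

lemma good_conv (L : Finset (Finset (V n))) (k : ℕ) (x : V n)
    (h : Pool.Agent.E8helper55.DB.Good L univ k x) : OnConstantFlat L k x := by
  obtain ⟨W, h1, h2⟩ := Pool.Agent.E8helper87.DB.key (L := L)
    (M := {y' | ∀ B ∈ L, x ∈ B ↔ y' ∈ B}) (k := k) (x := x)
    (fun u u' hu => ⟨fun h2 B hB => (h2 B hB).trans (hu B hB),
      fun h2 B hB => (h2 B hB).trans (hu B hB).symm⟩) (fun B _ => Iff.rfl) h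
  exact ⟨W, by omega, fun B hB w hw => h2 w hw B hB⟩

end

/-- 1. Let the weight of a family `L` of subsets of `F_2^n` be at most `(1 - 2 η) k + 3`, `η ≥ 0`.
Then all but at most `2^n exp (- 2 η² k)` points lie on a coset of a subspace of codimension at most
`k` on which all members of `L` are constant.
2. Let `A ⊆ (F_2^n)^2` be corner-free, let all its rows (or all columns, or all diagonals) be unions
of `T` sets which are locally decided with the parameters `D` and `s`, and let
`k + D ≤ (1/2 - δ) n` and `s ≤ (1 - 2 η) k + 3`, with `δ, η ≥ 0`. Then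
`|A| ≤ 4^n (exp (- 2 δ² n) + T exp (- 2 η² k))`.
3. There is a constant `C` such that `|A| ≤ C 4^n (exp (- n / 20000) + T R 2^(- n / 200))` for all
corner-free `A ⊆ (F_2^n)^2` such that, up to at most `2^(0.94 n)` points each, all rows (or all
columns, or all diagonals) of `A` are unions of `T` symmetric differences of `R` sets which are
decided with the parameters `D = ⌊n / 200⌋` and `s = n / 200`; and also for all corner-free `A` which
are themselves, as subsets of `F_2^(2 n)`, such a union. -/
theorem result :
    (∀ (n k : ℕ) (η : ℝ) (L : Finset (Finset (V n))), 0 ≤ η → weight L ≤ (1 - 2 * η) * k + 3 →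
      ({x | ¬ OnConstantFlat L k x}.ncard : ℝ) ≤ 2 ^ n * Real.exp (-(2 * η ^ 2 * k))) ∧
    (∀ (n T k D : ℕ) (s δ η : ℝ) (A : Finset (V n × V n)), CornerFree A → 0 ≤ δ → 0 ≤ η →
      (k : ℝ) + D ≤ (1 / 2 - δ) * n → s ≤ (1 - 2 * η) * k + 3 →
      (∃ d, ∀ t, ∃ F : Fin T → Set (V n), (∀ i, LocallyDecided D s (F i)) ∧
        line A d t = ⋃ i, F i) →
      (A.card : ℝ) ≤ 4 ^ n * (Real.exp (-(2 * δ ^ 2 * n)) + T * Real.exp (-(2 * η ^ 2 * k)))) ∧
    (∃ C : ℝ, 0 < C ∧ ∀ (n T R : ℕ) (A : Finset (V n × V n)), CornerFree A →
      ((∃ d, ∀ t, NearUnion T R (n / 200) ((n : ℝ) / 200) (2 ^ (0.94 * (n : ℝ))) (line A d t)) ∨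
        (∃ F : Fin T → Set (V (n + n)),
          (∀ i, SymmetricDifference R (n / 200) ((n : ℝ) / 200) (F i)) ∧
            ∀ x y, (x, y) ∈ A ↔ ∃ i, Fin.append x y ∈ F i)) →
      (A.card : ℝ) ≤ C * 4 ^ n * (Real.exp (-(n : ℝ) / 20000) +
        T * R * 2 ^ (-(n : ℝ) / 200))) := by
  classical
  refine ⟨fun n k η L hη hL => ?_, fun n T k D s δ η A hA hδ hη hk hs h => ?_, ?_⟩
  · have h1 := Pool.Agent.E8helper55.DB.structure_bound L k η hη (by rwa [← weight_eq])
    refine le_trans (Nat.cast_le.2 ?_) h1
    rw [Set.ncard_eq_toFinset_card']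
    refine card_le_card fun x hx => ?_
    rw [Set.mem_toFinset] at hx
    exact mem_filter.2 ⟨mem_univ _, fun hg => hx (good_conv L k x hg)⟩
  · obtain ⟨d, hd⟩ := h
    have h1 := Pool.Agent.E8helper55.DB.lines_bound Pool.Agent.E8helper13.DB.clos_holds A hA d
      T k D 0 s δ η 0 hδ hη (by push_cast; linarith) hs (fun t => by
        obtain ⟨F, hF, h2⟩ := hd t
        refine ⟨F, fun i => local_conv (hF i), ?_⟩
        rw [h2, symmDiff_self]
        simp)
    rwa [add_zero] at h1
  · obtain ⟨C, hC, h⟩ := Pool.Agent.E8helper55.DB.explicit_bound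
      (Pool.Agent.E8helper37.DB.num3_holds Pool.Agent.E8helper64.DB.vol36_holds)
    refine ⟨C, hC, fun n T R A hA hl => ?_⟩
    rw [neg_div, neg_div]
    apply h n T R A hA
    rcases hl with ⟨d, hd⟩ | ⟨F, hF, hA⟩
    · refine Or.inl ⟨d, fun t => ?_⟩
      have h2 := near_conv (hd t)
      have h3 : (0.94 : ℝ) * n = 47 / 50 * n := by norm_num
      rwa [h3] at h2
    · exact Or.inr ⟨F, fun i => sym_conv (hF i), hA⟩

end Pool.Agent.Results.MP_db4732_co.AlgebraNormLinesH55
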