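import Pool.Agent.E8helper49.Corner.Count
import Pool.Agent.E8helper49.Corner.Ent
import Pool.Agent.E8helper94.Corner.Lower5

set_option autoImplicit false

/-!
# Power-saving bounds for corner-free sets in `(F_2^n)^2`: equivalent forms with the same exponent

For every `c` in `(0, 1)` the bound `|A| ≤ C 4^((1 - c) n)` for all corner-free sets is equivalent to:
the same bound with `C = 1`; a bound for corner-free sets in arbitrary boxes `X × Y`, `x + y ∈ Z`;
an improvement of Young's convolution inequality on corner-free sets; an entropy inequality for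
random points of corner-free sets; the lower bound `δ^(1 + 1/(2c)) 8^n` for the number of corners of
every set of density `δ`; a lower bound for the number of corners of an arbitrary set in a box.
-/

namespace Pool.Agent.Results.MP_db4732_co.SharpFormsH49

open Finset

/-- `F_2^n` -/
abbrev V (n : ℕ) := Fin n → ZMod 2

/-- `A` contains no nontrivial corner `(x, y), (x, y + z), (x + z, y)`, `z ≠ 0`. -/
def CornerFree {n : ℕ} (A : Finset (V n × V n)) : Prop :=
  ∀ x y z : V n, (x, y) ∈ A → (x, y + z) ∈ A → (x + z, y) ∈ A → z = 0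

/-- The number of all triples `(x, y, z)` with `(x, y), (x, y + z), (x + z, y) ∈ A`
(`z = 0` allowed). -/
def corners {n : ℕ} (A : Finset (V n × V n)) : ℕ :=
  #{t : V n × V n × V n | (t.1, t.2.1) ∈ A ∧ (t.1, t.2.1 + t.2.2) ∈ A ∧ (t.1 + t.2.2, t.2.1) ∈ A}

/-- `{(x, y) ∈ A : x ∈ X, y ∈ Y, x + y ∈ Z}` -/
def inBox {n : ℕ} (A : Finset (V n × V n)) (X Y Z : Finset (V n)) : Finset (V n × V n) :=
  {p ∈ A | p.1 ∈ X ∧ p.2 ∈ Y ∧ p.1 + p.2 ∈ Z}

/-- Shannon entropy -/
noncomputable def entropy {ι : Type} [Fintype ι] (p : ι → ℝ) : ℝ := ∑ i, Real.negMulLog (p i)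

/-- the distribution of `π(p)` for a random point `p` with distribution `P` -/
noncomputable def law {n : ℕ} (π : V n × V n → V n) (P : V n × V n → ℝ) (v : V n) : ℝ :=
  ∑ p with π p = v, P p

/-- the bound asked for in Q1, with the exponent `c` -/
def PowerSaving (c : ℝ) : Prop := ∃ C : ℝ, ∀ (n : ℕ) (A : Finset (V n × V n)), CornerFree A →
  (#A : ℝ) ≤ C * 4 ^ ((1 - c) * (n : ℝ))

/-- the same with the constant `1` -/
def PowerSavingOne (c : ℝ) : Prop := ∀ (n : ℕ) (A : Finset (V n × V n)), CornerFree A →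
  (#A : ℝ) ≤ 4 ^ ((1 - c) * (n : ℝ))

/-- `|A ∩ {x ∈ X, y ∈ Y, x + y ∈ Z}| ≤ (|X| |Y| |Z|) ^ (2 (1 - c) / 3)` for corner-free `A` -/
def InBoxes (c : ℝ) : Prop := ∀ (n : ℕ) (A : Finset (V n × V n)) (X Y Z : Finset (V n)),
  CornerFree A → (#(inBox A X Y Z) : ℝ) ≤ ((#X : ℝ) * #Y * #Z) ^ (2 * (1 - c) / 3)

/-- `∑_A f(x) g(y) h(x + y) ≤ ‖f‖_r ‖g‖_r ‖h‖_r` for corner-free `A`, with `r = 3 / (2 (1 - c))`;
for `c = 0` this is Young's inequality -/
def Young (c : ℝ) : Prop := ∀ (n : ℕ) (A : Finset (V n × V n)) (f g h : V n → ℝ), CornerFree A →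
  (∀ v, 0 ≤ f v) → (∀ v, 0 ≤ g v) → (∀ v, 0 ≤ h v) →
  ∑ p ∈ A, f p.1 * g p.2 * h (p.1 + p.2) ≤
    (∑ v, f v ^ (3 / (2 * (1 - c)))) ^ (2 * (1 - c) / 3) *
    (∑ v, g v ^ (3 / (2 * (1 - c)))) ^ (2 * (1 - c) / 3) *
    (∑ v, h v ^ (3 / (2 * (1 - c)))) ^ (2 * (1 - c) / 3)

/-- `H(x, y) ≤ (2 (1 - c) / 3) (H(x) + H(y) + H(x + y))` for every random point `(x, y)` of a
corner-free set -/
def Entropic (c : ℝ) : Prop := ∀ (n : ℕ) (A : Finset (V n × V n)) (P : V n × V n → ℝ),
  CornerFree A → (∀ p, 0 ≤ P p) → ∑ p, P p = 1 → (∀ p, p ∉ A → P p = 0) →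
  entropy P ≤ 2 * (1 - c) / 3 * (entropy (law (fun p => p.1) P) + entropy (law (fun p => p.2) P) +
    entropy (law (fun p => p.1 + p.2) P))

/-- every set of density `δ` has at least `δ ^ K * 8 ^ n` corners -/
def ManyCorners (K : ℝ) : Prop := ∀ (n : ℕ) (A : Finset (V n × V n)),
  (8 : ℝ) ^ n * ((#A : ℝ) / 4 ^ n) ^ K ≤ corners A

/-- `|B| ^ (1 + 2 c) ≤ corners(B) ^ (2 c) * (|X| |Y| |Z|) ^ (2 (1 - c) / 3)` for every set `B` of
points with `x ∈ X`, `y ∈ Y`, `x + y ∈ Z` -/
def ManyCornersInBoxes (c : ℝ) : Prop :=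
  ∀ (n : ℕ) (A : Finset (V n × V n)) (X Y Z : Finset (V n)),
  (#(inBox A X Y Z) : ℝ) ^ (1 + 2 * c) ≤
    (corners (inBox A X Y Z) : ℝ) ^ (2 * c) * ((#X : ℝ) * #Y * #Z) ^ (2 * (1 - c) / 3)

lemma card_V (n : ℕ) : (#(univ : Finset (V n)) : ℝ) = 2 ^ n := by
  rw [card_univ, show Fintype.card (V n) = 2 ^ n by rw [Fintype.card_fun, Fintype.card_fin, ZMod.card]]
  push_cast; rfl

lemma pow_box (n : ℕ) (c : ℝ) :
    ((#(univ : Finset (V n)) : ℝ) * #(univ : Finset (V n)) * #(univ : Finset (V n))) ^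
      (2 * (1 - c) / 3) = (4 : ℝ) ^ ((1 - c) * (n : ℝ)) := by
  rw [card_V, show (4 : ℝ) = (2 : ℝ) ^ (2 : ℝ) by norm_num, ← Real.rpow_mul (by norm_num)]
  have : ((2 : ℝ) ^ n * 2 ^ n * 2 ^ n) = (2 : ℝ) ^ ((3 * n : ℝ)) := by
    rw [← pow_add, ← pow_add, ← Real.rpow_natCast]
    congr 1; push_cast; ring
  rw [this, ← Real.rpow_mul (by norm_num)]
  congr 1; ring

lemma inBox_univ {n : ℕ} (A : Finset (V n × V n)) : inBox A univ univ univ = A := by
  unfold inBox
  simp

lemma corners_eq {n : ℕ} (A : Finset (V n × V n)) (hA : CornerFree A) : corners A = #A :=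
  Pool.Agent.E8helper49.Corner.cor_of_cf (A := A) hA

lemma tfae (c : ℝ) (hc0 : 0 < c) (hc1 : c < 1) :
    List.TFAE [PowerSaving c, PowerSavingOne c, InBoxes c, Young c, Entropic c,
      ManyCorners (1 + 1 / (2 * c)), ManyCornersInBoxes c] := by
  have hs : 0 < 2 * (1 - c) / 3 := by linarith
  tfae_have 1 → 3 := by
    rintro ⟨C, h⟩ n A X Y Z hA
    exact Pool.Agent.E8helper49.Corner.rel (C := C) hc1 (fun n A hA => h n A hA) A hA X Y Z
  tfae_have 3 → 2 := by
    intro h n A hA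
    have h1 := h n A univ univ univ hA
    rwa [inBox_univ, pow_box] at h1
  tfae_have 2 → 1 := by
    intro h
    exact ⟨1, fun n A hA => by rw [one_mul]; exact h n A hA⟩
  tfae_have 1 → 4 := by
    rintro ⟨C, h⟩ n A f g k hA hf hg hk
    exact Pool.Agent.E8helper49.Corner.young (C := C) hc1 (fun n A hA => h n A hA) A hA f g k
      hf hg hk
  tfae_have 4 → 5 := by
    intro h n A P hA hP h1 h0
    refine Pool.Agent.E8helper49.Corner.ent_of_young hs A ?_ P hP h1 h0
    intro f g k hf hg hk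
    have h2 := h n A f g k hA hf hg hk
    have hr : 3 / (2 * (1 - c)) = 1 / (2 * (1 - c) / 3) := by rw [one_div_div]
    rwa [hr] at h2
  tfae_have 5 → 2 := by
    intro h n A hA
    rcases A.eq_empty_or_nonempty with h0 | hne
    · rw [h0, card_empty, Nat.cast_zero]; positivity
    · have h1 := Pool.Agent.E8helper49.Corner.card_of_ent hs A hne (fun P hP h1 h0 => h n A P hA hP h1 h0)
      refine h1.trans (le_of_eq ?_)
      rw [show (4 : ℝ) = (2 : ℝ) ^ (2 : ℝ) by norm_num, ← Real.rpow_mul (by norm_num)]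
      congr 1; ring
  tfae_have 1 → 7 := by
    rintro ⟨C, h⟩ n A X Y Z
    exact Pool.Agent.E8helper49.Corner.count (C := C) hc0.le hc1 (fun n A hA => h n A hA)
      (inBox A X Y Z) X Y Z (fun p hp => (mem_filter.1 hp).2)
  tfae_have 7 → 6 := by
    intro h n A
    have h1 := h n A univ univ univ
    rw [inBox_univ, pow_box] at h1
    rcases Nat.eq_zero_or_pos #A with h0 | hpos
    · rw [h0, Nat.cast_zero, zero_div, Real.zero_rpow (by positivity), mul_zero]
      positivity
    have ha : (0 : ℝ) < #A := by exact_mod_cast hpos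
    have h2c : 0 < 2 * c := by linarith
    rw [← Real.rpow_le_rpow_iff (by positivity) (by positivity) h2c]
    have e : ((8 : ℝ) ^ n * ((#A : ℝ) / 4 ^ n) ^ (1 + 1 / (2 * c))) ^ (2 * c) =
        (#A : ℝ) ^ (1 + 2 * c) / 4 ^ ((1 - c) * (n : ℝ)) := by
      rw [Real.mul_rpow (by positivity) (by positivity), ← Real.rpow_mul (by positivity),
        show (1 + 1 / (2 * c)) * (2 * c) = 1 + 2 * c by field_simp; ring,
        Real.div_rpow ha.le (by positivity), mul_div_assoc', mul_comm, mul_div_assoc]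
      rw [div_eq_mul_inv ((#A : ℝ) ^ (1 + 2 * c)), mul_right_inj' (by positivity)]
      rw [← Real.rpow_neg (by norm_num), ← Real.rpow_natCast, ← Real.rpow_natCast,
        show (8 : ℝ) = (2 : ℝ) ^ (3 : ℝ) by norm_num, show (4 : ℝ) = (2 : ℝ) ^ (2 : ℝ) by norm_num,
        ← Real.rpow_mul (by norm_num), ← Real.rpow_mul (by norm_num), ← Real.rpow_mul (by norm_num),
        ← Real.rpow_mul (by norm_num), ← Real.rpow_mul (by norm_num),
        ← Real.rpow_sub (by norm_num)]
      congr 1; ring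
    rw [e, div_le_iff₀ (by positivity)]
    exact h1
  tfae_have 6 → 2 := by
    intro h n A hA
    have h1 := h n A
    rw [corners_eq A hA] at h1
    rcases Nat.eq_zero_or_pos #A with h0 | hpos
    · rw [h0, Nat.cast_zero]; positivity
    have ha : (0 : ℝ) < #A := by exact_mod_cast hpos
    set δ : ℝ := (#A : ℝ) / 4 ^ n with hδ
    have hδ0 : 0 < δ := by positivity
    have haδ : (#A : ℝ) = 4 ^ n * δ := by rw [hδ]; field_simp
    have h2 : (2 : ℝ) ^ n * δ ^ (1 / (2 * c)) ≤ 1 := by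
      rw [Real.rpow_add hδ0, Real.rpow_one, haδ] at h1
      have h3 : (4 : ℝ) ^ n * δ * ((2 : ℝ) ^ n * δ ^ (1 / (2 * c))) ≤ (4 : ℝ) ^ n * δ * 1 := by
        calc (4 : ℝ) ^ n * δ * ((2 : ℝ) ^ n * δ ^ (1 / (2 * c)))
            = (4 * 2 : ℝ) ^ n * (δ * δ ^ (1 / (2 * c))) := by rw [mul_pow]; ring
          _ = (8 : ℝ) ^ n * (δ * δ ^ (1 / (2 * c))) := by norm_num
          _ ≤ _ := by rw [mul_one]; exact h1
      exact le_of_mul_le_mul_left h3 (mul_pos (pow_pos (by norm_num) n) hδ0)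
    have h4 : δ ^ (1 / (2 * c)) ≤ (2 : ℝ) ^ (-(n : ℝ)) := by
      rw [Real.rpow_neg (by norm_num), Real.rpow_natCast, ← one_div, le_div_iff₀ (by positivity)]
      linarith
    have h5 : δ ≤ (2 : ℝ) ^ (-(2 * c * n : ℝ)) := by
      have h6 := Real.rpow_le_rpow (Real.rpow_nonneg hδ0.le _) h4 (by linarith : 0 ≤ 2 * c)
      rw [← Real.rpow_mul hδ0.le, ← Real.rpow_mul (by norm_num),
        show 1 / (2 * c) * (2 * c) = 1 by field_simp, Real.rpow_one] at h6
      refine h6.trans (le_of_eq ?_)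
      congr 1; ring
    calc (#A : ℝ) = 4 ^ n * δ := haδ
      _ ≤ 4 ^ n * (2 : ℝ) ^ (-(2 * c * n : ℝ)) := by gcongr
      _ = _ := by
        rw [← Real.rpow_natCast, show (4 : ℝ) = (2 : ℝ) ^ (2 : ℝ) by norm_num,
          ← Real.rpow_mul (by norm_num), ← Real.rpow_add (by norm_num),
          ← Real.rpow_mul (by norm_num)]
        congr 1; ring
  tfae_finish

lemma mono {K K' : ℝ} (hK : 0 < K) (h : K ≤ K') (hM : ManyCorners K) : ManyCorners K' := by
  intro n A
  refine le_trans ?_ (hM n A)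
  apply mul_le_mul_of_nonneg_left _ (by positivity)
  have h1 : (#A : ℝ) / 4 ^ n ≤ 1 := by
    rw [div_le_one (by positivity)]
    have : #A ≤ 4 ^ n := by
      calc #A ≤ Fintype.card (V n × V n) := card_le_univ A
        _ = 4 ^ n := by
          rw [Fintype.card_prod, show Fintype.card (V n) = 2 ^ n by
            rw [Fintype.card_fun, Fintype.card_fin, ZMod.card], ← mul_pow]
          norm_num
    exact_mod_cast this
  rcases eq_or_lt_of_le (show 0 ≤ (#A : ℝ) / 4 ^ n by positivity) with h0 | h0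
  · rw [← h0, Real.zero_rpow (by linarith), Real.zero_rpow (by linarith)]
  · exact Real.rpow_le_rpow_of_exponent_ge h0 h1 h

lemma pos_of {K : ℝ} (hM : ManyCorners K) : 0 < K := by
  by_contra hK
  push Not at hK
  rcases eq_or_lt_of_le hK with h0 | h0
  · have h1 := hM 0 ∅
    rw [h0] at h1
    simp [corners] at h1
    linarith
  · -- a single point in dimension one
    have h1 := hM 1 {(0, 0)}
    have h2 : corners ({(0, 0)} : Finset (V 1 × V 1)) = 1 := by
      rw [corners_eq]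
      · simp
      · intro x y z h1 h2 h3
        simp only [mem_singleton, Prod.mk.injEq] at h1 h2 h3
        rw [h1.1] at h3
        simpa using h3.1
    rw [h2] at h1
    have h3 : (1 : ℝ) ≤ ((#({(0, 0)} : Finset (V 1 × V 1)) : ℝ) / 4 ^ 1) ^ K := by
      rw [card_singleton]
      apply Real.one_le_rpow_of_pos_of_le_one_of_nonpos (by norm_num) (by norm_num) h0.le
    norm_num at h1 h3
    linarith

/-- (1) For every `c` in `(0, 1)`, seven forms of the power saving bound are equivalent.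
(2) Q1 holds if and only if there is a polynomial lower bound `δ ^ K * 8 ^ n` for the number of
corners of all sets of density `δ`.
(3) Such a bound can hold only with `K > 5.86`. -/
theorem result :
    (∀ c : ℝ, 0 < c → c < 1 → List.TFAE [PowerSaving c, PowerSavingOne c, InBoxes c, Young c,
      Entropic c, ManyCorners (1 + 1 / (2 * c)), ManyCornersInBoxes c]) ∧
    ((∃ C c : ℝ, 0 < C ∧ 0 < c ∧ ∀ n : ℕ, 1 ≤ n → ∀ A : Finset (V n × V n), CornerFree A →
      (#A : ℝ) ≤ C * 4 ^ ((1 - c) * (n : ℝ))) ↔ ∃ K : ℝ, ManyCorners K) ∧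
    (∀ K : ℝ, ManyCorners K → 5.86 < K) := by
  refine ⟨tfae, ⟨?_, ?_⟩, ?_⟩
  · rintro ⟨C, c, hC, hc, h⟩
    set c' := min c (1 / 2) with hc'
    have h0 : 0 < c' := lt_min hc (by norm_num)
    have h1 : c' < 1 := lt_of_le_of_lt (min_le_right _ _) (by norm_num)
    have hps : PowerSaving c' := by
      refine ⟨max C 1, fun n A hA => ?_⟩
      rcases Nat.eq_zero_or_pos n with h2 | h2
      · subst h2
        have h3 : #A ≤ 1 := by
          calc #A ≤ Fintype.card (V 0 × V 0) := card_le_univ A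
            _ = 1 := by simp
        have h4 : (#A : ℝ) ≤ 1 := by exact_mod_cast h3
        simp only [Nat.cast_zero, mul_zero, Real.rpow_zero, mul_one]
        exact h4.trans (le_max_right _ _)
      · refine (h n h2 A hA).trans ?_
        apply mul_le_mul (le_max_left _ _) _ (by positivity) (by positivity)
        apply Real.rpow_le_rpow_of_exponent_le (by norm_num)
        apply mul_le_mul_of_nonneg_right _ (by positivity)
        linarith [min_le_left c (1 / 2)]
    exact ⟨_, ((tfae c' h0 h1).out 0 5).1 hps⟩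
  · rintro ⟨K, hK⟩
    have hK0 := pos_of hK
    have h2 : ManyCorners (max K 2) := mono hK0 (le_max_left _ _) hK
    set K' := max K 2 with hK'
    have hK2 : 2 ≤ K' := le_max_right _ _
    set c := 1 / (2 * (K' - 1)) with hcdef
    have hc0 : 0 < c := by rw [hcdef]; apply one_div_pos.2; linarith
    have hc1 : c < 1 := by
      rw [hcdef, div_lt_one (by linarith)]; linarith
    have hKc : K' = 1 + 1 / (2 * c) := by
      have : K' - 1 ≠ 0 := by linarith
      rw [hcdef]; field_simp; ring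
    rw [hKc] at h2
    obtain ⟨C, hC⟩ := ((tfae c hc0 hc1).out 5 0).1 h2
    refine ⟨max C 1, c, lt_of_lt_of_le one_pos (le_max_right _ _), hc0, fun n _ A hA => ?_⟩
    exact (hC n A hA).trans (mul_le_mul_of_nonneg_right (le_max_left _ _) (by positivity))
  · intro K hK
    by_contra hcon
    push Not at hcon
    have hM : ManyCorners 5.86 := mono (pos_of hK) hcon hK
    obtain ⟨n0, hn0⟩ := Pool.Agent.E8helper94.Corner.Lower5.main5
    obtain ⟨A, _, _, _, h4⟩ := hn0 n0 le_rfl
    exact absurd (hM n0 A) (not_le.2 h4)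

end Pool.Agent.Results.MP_db4732_co.SharpFormsH49
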