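import Pool.Agent.E8helper80.CT.Dir

/-!
# Corner-free sets in `(F_2^n)^2` whose lines are translates of few sets

If every row (or column, or diagonal) of a corner-free set `A ⊆ (F_2^n)^2` is a union of `N`
translates of members of a list of `T` sets, all of this chosen in any way, then
`|A| ≤ N T 54^(n / 3) < N T 3.78^n`. If every row is a union of `N` translates of members of `T`
families of sets which are totally ordered by inclusion, `|A| ≤ N T (2 n + 2) 4^(0.98 n)`. The
translations depend on the line in an arbitrary way; no structure of the sets is used.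

More generally let `R x s` be a matrix of rank at most `r` over a field of characteristic 2 and
`φ` any map. The set `{(x, s + φ x) | R x s ≠ 0}` with `F` elements has at least
`F^2 / (r^2 54^(n / 3))` corners, and at most `r^2 54^(n / 3)` elements if it has no nontrivial one.

Idea. Put `ψ x = x + φ x`. For a fixed `t` the matrix
`M x x' = R x (t + x') * g (ψ x + φ x') * R x' (t + ψ x + φ x')` describes the corners
`(x, y), (x, y + z), (x + z, y)` with `y = t + ψ x`, `z = x + x'`: its diagonal entries are nonzero
for the points `(x, t + x)` of the slice `t` at which `g ≠ 0`. As in the cap set argument a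
function `g` with few zeros makes all products `g c * v_k (t + c)` polynomials of degree at most
`2 n / 3` in `c`; splitting them at `c = ψ x + φ x'` shows that `M` has small rank. The greedy form
of Turán's theorem turns this into a number of corners, and tensor powers remove the constant.
-/

set_option autoImplicit false

namespace Pool.Agent.Results.MP_db4732_co.TranslatedLinesH80

open Finset

/-- `F_2^n` -/
abbrev V (n : ℕ) := Fin n → ZMod 2

/-- `A ⊆ (F_2^n)^2` contains no nontrivial corner `(x, y), (x, y + z), (x + z, y)`, `z ≠ 0`. -/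
def CornerFree {n : ℕ} (A : Finset (V n × V n)) : Prop :=
  ∀ x y z : V n, z ≠ 0 → ¬ ((x, y) ∈ A ∧ (x, y + z) ∈ A ∧ (x + z, y) ∈ A)

/-- the number of all triples `(x, y, z)` with `(x, y), (x, y + z), (x + z, y)` in `A`; the
trivial ones `z = 0` are counted -/
noncomputable def corners {n : ℕ} (A : Finset (V n × V n)) : ℕ :=
  Nat.card {p : V n × V n × V n // (p.1, p.2.1) ∈ A ∧ (p.1, p.2.1 + p.2.2) ∈ A ∧
    (p.1 + p.2.2, p.2.1) ∈ A}

/-- the three directions of lines in `(F_2^n)^2` -/
inductive Direction : Type
  | row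
  | column
  | diagonal

/-- the point of the line `x` (of the direction `d`) which belongs to `y` -/
def point {n : ℕ} : Direction → V n → V n → V n × V n
  | .row, x, y => (x, y)
  | .column, x, y => (y, x)
  | .diagonal, x, y => (x + y, y)

/-- `C x s` compares a number depending on `x` with a number depending on `s`. -/
def IsComparison {n : ℕ} (C : V n → V n → Prop) : Prop :=
  ∃ f g : V n → ℝ, ∀ x s, C x s ↔ f x ≤ g s

/-- decision trees whose queries are relations `C x s` -/
inductive Tree (n : ℕ) : Type
  | leaf (b : Bool) : Tree n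
  | node (C : V n → V n → Prop) (yes no : Tree n) : Tree n

/-- the largest number of queries on a branch -/
def Tree.depth {n : ℕ} : Tree n → ℕ
  | .leaf _ => 0
  | .node _ s t => max s.depth t.depth + 1

/-- all queries are comparisons -/
def Tree.Comparisons {n : ℕ} : Tree n → Prop
  | .leaf _ => True
  | .node C s t => IsComparison C ∧ s.Comparisons ∧ t.Comparisons

/-- the tree accepts `(x, s)` -/
def Tree.Accepts {n : ℕ} : Tree n → V n → V n → Prop
  | .leaf b, _, _ => b = true
  | .node C s t, x, y => (C x y ∧ s.Accepts x y) ∨ (¬ C x y ∧ t.Accepts x y)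

/-! ### Translation to the library -/

/-- the same tree for the library -/
def Tree.conv {n : ℕ} : Tree n → Pool.Agent.E8helper80.CT.Tree n
  | .leaf b => .leaf b
  | .node C s t => .node C s.conv t.conv

lemma conv_depth {n : ℕ} (T : Tree n) : T.conv.depth = T.depth := by
  induction T with
  | leaf b => rfl
  | node C s t ihs iht =>
    simp only [Tree.conv, Pool.Agent.E8helper80.CT.Tree.depth, Tree.depth, ihs, iht]

lemma conv_comparisons {n : ℕ} (T : Tree n) (h : T.Comparisons) : T.conv.Comparisons := by
  induction T with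
  | leaf b => trivial
  | node C s t ihs iht => exact ⟨h.1, ihs h.2.1, iht h.2.2⟩

lemma conv_accepts {n : ℕ} (T : Tree n) (x y : V n) : T.conv.Accepts x y ↔ T.Accepts x y := by
  induction T with
  | leaf b => exact Iff.rfl
  | node C s t ihs iht =>
    simp only [Tree.conv, Pool.Agent.E8helper80.CT.Tree.Accepts, Tree.Accepts, ihs, iht]

/-- the same direction for the library -/
def Direction.conv : Direction → Pool.Agent.E8helper80.CT.Dir
  | .row => .row
  | .column => .col
  | .diagonal => .diag

lemma point_conv {n : ℕ} (d : Direction) (x y : V n) :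
    Pool.Agent.E8helper80.CT.pt d.conv x y = point d x y := by
  cases d <;> rfl

lemma corners_conv {n : ℕ} (A : Finset (V n × V n)) :
    (Pool.Agent.E8helper80.CT.crn A).card = corners A := by
  classical
  unfold corners Pool.Agent.E8helper80.CT.crn
  rw [Nat.card_eq_fintype_card, Fintype.card_subtype]

lemma supp_conv {n r : ℕ} {K : Type} [Field K] (u v : Fin r → V n → K) :
    (Pool.Agent.E8helper80.CT.supp u v).card =
      Nat.card {p : V n × V n // ∑ j, u j p.1 * v j p.2 ≠ 0} := by
  classical
  unfold Pool.Agent.E8helper80.CT.supp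
  rw [Nat.card_eq_fintype_card, Fintype.card_subtype]
  rfl

/-- **Theorem.** -/
theorem result :
    -- (1) every line is the union of `N` translates of members of a list of `T` sets
    (∀ (n N T : ℕ) (A : Finset (V n × V n)) (d : Direction) (S : Fin T → Finset (V n)),
      CornerFree A →
      (∀ x, ∃ (j : Fin N → Fin T) (c : Fin N → V n), ∀ y,
        point d x y ∈ A ↔ ∃ i, y + c i ∈ S (j i)) →
      (A.card : ℝ) ≤ N * T * (54 : ℝ) ^ ((n : ℝ) / 3)) ∧
    -- (2) every line is the union of `N` translates of members of `T` chains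
    (∀ (n N T : ℕ) (A : Finset (V n × V n)) (d : Direction) (C : Fin T → Set (Finset (V n))),
      CornerFree A → (∀ t, IsChain (· ⊆ ·) (C t)) →
      (∀ x, ∃ (j : Fin N → Fin T) (c : Fin N → V n) (S : Fin N → Finset (V n)),
        (∀ i, S i ∈ C (j i)) ∧ ∀ y, point d x y ∈ A ↔ ∃ i, y + c i ∈ S i) →
      (A.card : ℝ) ≤ N * T * (2 * n + 2) * (4 : ℝ) ^ ((1 - 0.02 : ℝ) * n)) ∧
    -- (3) for all sets `A`: the lines which contain a translate of `S`
    (∀ (n : ℕ) (A : Finset (V n × V n)) (d : Direction) (S X : Finset (V n)),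
      (∀ x ∈ X, ∃ c : V n, ∀ s ∈ S, point d x (s + c) ∈ A) →
      ((S.card : ℝ) * X.card) ^ 2 ≤ (54 : ℝ) ^ ((n : ℝ) / 3) * corners A ∧
      (CornerFree A → (S.card : ℝ) * X.card ≤ (54 : ℝ) ^ ((n : ℝ) / 3))) ∧
    -- (4) for all sets `A`: matrices of rank at most `r` whose shifted rows lie in the lines
    (∀ (n r : ℕ) (K : Type) [Field K] [CharP K 2] (A : Finset (V n × V n)) (d : Direction)
      (φ : V n → V n) (u v : Fin r → V n → K),
      (∀ x s, ∑ j, u j x * v j s ≠ 0 → point d x (s + φ x) ∈ A) →
      (Nat.card {p : V n × V n // ∑ j, u j p.1 * v j p.2 ≠ 0} : ℝ) ^ 2 ≤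
        (r : ℝ) ^ 2 * (54 : ℝ) ^ ((n : ℝ) / 3) * corners A ∧
      (CornerFree A → (Nat.card {p : V n × V n // ∑ j, u j p.1 * v j p.2 ≠ 0} : ℝ) ≤
        (r : ℝ) ^ 2 * (54 : ℝ) ^ ((n : ℝ) / 3))) ∧
    -- (5) unions of `N` pieces, each with its own direction and shifts, given by a matrix of rank
    -- at most `r`, matching labels and a comparison tree of depth at most `k`
    (∀ (n N k r : ℕ) (K : Type) [Field K] [CharP K 2] (A : Finset (V n × V n))
      (d : Fin N → Direction) (φ : Fin N → V n → V n) (u v : Fin N → Fin r → V n → K)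
      (a b : Fin N → V n → ℕ) (T : Fin N → Tree n), CornerFree A →
      (∀ i, (T i).Comparisons) → (∀ i, (T i).depth ≤ k) →
      (∀ p, p ∈ A ↔ ∃ i x s, p = point (d i) x (s + φ i x) ∧
        ∑ j, u i j x * v i j s ≠ 0 ∧ a i x = b i s ∧ (T i).Accepts x s) →
      (A.card : ℝ) ≤ N * (2 * n + 2) ^ k * r * (4 : ℝ) ^ ((1 - 0.02 : ℝ) * n)) := by
  classical
  refine ⟨?_, ?_, ?_, ?_, ?_⟩
  · intro n N T A d S hA h
    refine Pool.Agent.E8helper80.CT.few_shapes A hA d.conv N T S (fun x => ?_)
    obtain ⟨j, c, h1⟩ := h x
    exact ⟨j, c, fun y => by rw [point_conv]; exact h1 y⟩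
  · intro n N T A d C hA hC h
    refine Pool.Agent.E8helper80.CT.few_chains A hA d.conv N T C hC (fun x => ?_)
    obtain ⟨j, c, S, h1, h2⟩ := h x
    exact ⟨j, c, S, h1, fun y => by rw [point_conv]; exact h2 y⟩
  · intro n A d S X h
    have h' : ∀ x, ∃ c : V n, x ∈ X → ∀ s ∈ S, point d x (s + c) ∈ A := by
      intro x
      by_cases hx : x ∈ X
      · obtain ⟨c, hc⟩ := h x hx
        exact ⟨c, fun _ => hc⟩
      · exact ⟨0, fun h => absurd h hx⟩
    choose c hc using h'
    have h1 := Pool.Agent.E8helper80.CT.translates A d.conv S X c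
      (fun x hx s hs => by rw [point_conv]; exact hc x hx s hs)
    rw [corners_conv] at h1
    exact h1
  · intro n r K _ _ A d φ u v h
    have h1 := Pool.Agent.E8helper80.CT.matrix_main A d.conv φ u v
      (fun x s hs => by rw [point_conv]; exact h x s hs)
    rw [corners_conv, supp_conv, Fintype.card_fin] at h1
    exact h1
  · intro n N k r K _ _ A d φ u v a b T hA hT hk h
    refine Pool.Agent.E8helper80.CT.pieces A hA N k r (fun i => (d i).conv) φ u v a b
      (fun i => (T i).conv) (fun i => conv_comparisons _ (hT i))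
      (fun i => by rw [conv_depth]; exact hk i) (fun i x s hs => ?_) (fun p hp => ?_)
    · rw [point_conv]
      exact (h _).2 ⟨i, x, s, rfl, hs.1, hs.2.1, (conv_accepts _ _ _).1 hs.2.2⟩
    · obtain ⟨i, x, s, h1, h2, h3, h4⟩ := (h p).1 hp
      exact ⟨i, x, s, by rw [point_conv]; exact h1, h2, h3, (conv_accepts _ _ _).2 h4⟩

end Pool.Agent.Results.MP_db4732_co.TranslatedLinesH80
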