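import Mathlib
import Pool.Agent.E8helper69.CV.Main

/-!
Corner-free subsets of `F_2^n × F_2^n` which are decided by weighted votes, of bounded total weight,
of circuits of bounded depth with AND, OR, NOT and `MOD p` gates, or all of whose rows (or columns, or
diagonals) are decided by such votes. In particular, corner-free sets all of whose rows have an
indicator function which is a combination, with bounded coefficient sum, of `±1`-valued functions of
degree at most `k` over `Z/p` (for `p = 2` and `k = 1`: whose rows have a bounded Fourier algebra norm).

The proof: (a) for a matrix over a field which is supported in a corner-free set, the number of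
nonzero entries is at most `2^n` times the dimension of the row space; (b) a circuit which is sampled
with probability proportional to the weight of its vote agrees with the set at each point with a
probability between `1/2 + ε` and `1/2 + β`, and so does its low degree approximation over `Z/p`;
(c) the number of votes among `l` independent samples is then, up to a proportion `exp(- ε² l)` of
the samples, in a window of length `4 β l` next to `l / 2`, and the majority function agrees in this
window with a polynomial over `Z` in the binomial coefficients of degree at most `4 β l + 1`; this
gives a polynomial of low degree which agrees with the set up to `2^n / 4^m` points; (d) there is a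
polynomial of degree at most `D` which vanishes on these points and is nonzero at half of the points
of the row, up to a few points.
-/

namespace Pool.Agent.Results.MP_db4732_co.WeightedVotesH69

open Pool.Agent.W856.Corner Pool.Agent.E8helper69.CV

/-- Let `A` be a corner-free subset of `(F_2^n)^2`, let `p` be a prime and let `k ≥ 1`.
1. Let `B ≥ 1` and `M` be real, let `R ≥ 1` be an integer with `M B ≤ R`, and let `D = voteDegree p k
   s d R = 75 R k ((p - 1) (⌈log_2 s⌉ + ⌈log_2 R⌉ + 4))^d`. If every row (or every column, or every
   diagonal) of `A` is a union of `T` sets, or if `A` itself is a union of `T` sets, each of which is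
   decided by a weighted vote, of total weight at most `M` and with the sum of the votes in
   `[-B, -1] ∪ [1, B]`, of any number of sets computed by circuits with at most `s` AND and OR gates
   and with depth at most `d` (all the `MOD p` gates and all the functions of degree at most `k` over
   `Z/p` are free in size), then `|A| ≤ 40000 T D^2 4^n exp(-n / (12800 D^2))`.
2. Let `M ≥ 1` be an integer. If the indicator function of every row (or every column, or every
   diagonal) of `A` is a linear combination, with coefficients of sum at most `M` in absolute value,
   of functions with the values `1` and `-1` which are polynomials of degree at most `k` over `Z/p`,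
   then `|A| ≤ 40000 (225 M k)^2 4^n exp(-n / (12800 (225 M k)^2))`. -/
theorem result (p k n : ℕ) (hp : p.Prime) (hk : 1 ≤ k) (A : Finset (V n × V n))
    (hA : CornerFree A) :
    (∀ (s d T R : ℕ) (M B : ℝ), 1 ≤ B → 1 ≤ R → M * B ≤ R →
      ((∃ L : V n → Set (V n), IsLines A L ∧
          ∀ x, ∃ F : Fin T → Set (V n), (∀ i, Voted p k s d M B (F i)) ∧ L x = ⋃ i, F i) ∨
        (∃ F : Fin T → Set (V (n + n)), (∀ i, Voted p k s d M B (F i)) ∧
          ∀ x y, (x, y) ∈ A ↔ ∃ i, Fin.append x y ∈ F i)) →
      (A.card : ℝ) ≤ 40000 * T * (voteDegree p k s d R : ℝ) ^ 2 * 4 ^ n *
        Real.exp (-(n : ℝ) / (12800 * (voteDegree p k s d R : ℝ) ^ 2))) ∧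
    (∀ M : ℕ, 1 ≤ M → (∃ L : V n → Set (V n), IsLines A L ∧ ∀ x, BoundedNorm p k M (L x)) →
      (A.card : ℝ) ≤ 40000 * (225 * (M * k) : ℝ) ^ 2 * 4 ^ n *
        Real.exp (-(n : ℝ) / (12800 * (225 * (M * k)) ^ 2))) := by
  refine ⟨fun s d T R M B hB hR1 hR h => ?_, fun M hM h => ?_⟩
  · rcases h with ⟨L, hL, h⟩ | h
    · exact vote_bound hp hk hB hR1 hR A hA L hL h
    · exact vote_bound' hp hk hB hR1 hR A hA h
  · obtain ⟨L, hL, h⟩ := h
    exact norm_bound hp hk hM A hA L hL h

end Pool.Agent.Results.MP_db4732_co.WeightedVotesH69
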